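import Pool.Agent.H599R3.RH.Fin

/-!
# Relatively hyperbolic subgroups of diagram groups

A version of `Pool.Agent.H599R3.RH.main` for subgroups which contain, up to powers, the centralizers
of their nontrivial elements, and for arbitrary families of proper peripheral subgroups.
-/

set_option autoImplicit false

namespace Pool.Agent.Y796.RH

open H540DG Pool.Agent.H599R3.RH

variable {A : Type} {P : Pres A}

theorem pi_pow {s : List A} {β : U P} (h : Pi s β s) (n : ℕ) : Pi s (β ^ n) s := by
  induction n with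
  | zero => simpa using Pi.refl s
  | succ n ih => rw [pow_succ]; exact ih.trans h

theorem main (w : List A) {G : Type} [Group G] (j : G →* Dg P w) (hj : Function.Injective j)
    (hpow : ∀ k : G, k ≠ 1 → ∀ z : Dg P w, j k * z = z * j k → ∃ n : ℕ, n ≠ 0 ∧ ∃ y : G, j y = z ^ n)
    {ι : Type} (H : ι → Subgroup G) (hprop : ∀ i, H i ≠ ⊤) (hH : IsHypRel H) :
    Splits G ∨ Cyc G := by
  by_contra hcon
  push Not at hcon
  obtain ⟨hs, hc⟩ := hcon
  have hj1 : ∀ g : G, g ≠ 1 → j g ≠ 1 := by
    intro g hg h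
    exact hg (hj (by rw [h, map_one]))
  have htf : ∀ g : G, g ≠ 1 → ∀ n : ℕ, n ≠ 0 → g ^ n ≠ 1 := by
    intro g hg n hn h
    apply dg_tf (j g) (hj1 g hg) n hn
    rw [← map_pow, h, map_one]
  have hmal : ∀ i, ∀ g h : G, h ∈ H i → h ≠ 1 → g⁻¹ * h * g ∈ H i → g ∈ H i :=
    fun i g h h1 h2 h3 => (malnormal hH i i g h h1 (htf h h2) h3).2
  obtain ⟨h0, hh1⟩ : ∃ h0 : G, h0 ≠ 1 := by
    by_contra hall
    push Not at hall
    exact hc ⟨1, fun g => ⟨0, by rw [zpow_zero, hall g]⟩⟩
  have hw : ¬ Tr P w := by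
    intro h
    apply hj1 h0 hh1
    exact Subtype.ext (h _ (j h0).2)
  let iV : MulAction G (Cl P w (FV P)) := MulAction.compHom _ j
  let iE : MulAction G (Cl P w (FE P)) := MulAction.compHom _ j
  have hsm : ∀ (g : G) (v : Cl P w (FV P)), g • v = j g • v := fun _ _ => rfl
  let T : Tree G (Cl P w (FV P)) (Cl P w (FE P)) :=
    { d0 := bd0 hw
      d1 := bd1 hw
      s0 := fun g x => bd0_smul hw (j g) x
      s1 := fun g x => bd1_smul hw (j g) x
      conn := fun {M} F hF u v => by
        obtain ⟨m, hm⟩ := tree_conn hw F hF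
        rw [hm, hm]
      surj := fun φ => tree_surj hw φ }
  -- powers of the elements commuting with the vertex stabilizers
  have hcen : ∀ (v : Cl P w (FV P)) (k : G), k ≠ 1 → k • v = v →
      ∃ (g0 : U P) (p s : List A) (β : U P), Pi s β s ∧ β ≠ 1 ∧
        (∃ y : G, (j y).1 = g0 * wh p [] β * g0⁻¹) ∧
        ∀ k : G, k • v = v → ∃ α, Pi p α p ∧ (j k).1 = g0 * wh [] s α * g0⁻¹ := by
    intro v k hk1 hk
    obtain ⟨g0, p, s, β, hβ, hβ1, ⟨z, hz⟩, hst⟩ := stab_vertex v
    have hcomm : j k * z = z * j k := by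
      obtain ⟨α, hα, hk2⟩ := hst (j k) hk
      apply Subtype.ext
      rw [Subgroup.coe_mul, Subgroup.coe_mul, hk2, hz]
      have h4 := interchange hα hβ
      calc g0 * wh [] s α * g0⁻¹ * (g0 * wh p [] β * g0⁻¹)
          = g0 * (wh [] s α * wh p [] β) * g0⁻¹ := by group
        _ = g0 * (wh p [] β * wh [] s α) * g0⁻¹ := by rw [h4]
        _ = _ := by group
    obtain ⟨n, hn, y, hy⟩ := hpow k hk1 z hcomm
    refine ⟨g0, p, s, β ^ n, pi_pow hβ n, ?_, ⟨y, ?_⟩, fun k hk => hst (j k) hk⟩
    · intro h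
      exact hβ1 (torsion_free hβ hn h)
    · rw [hy, Subgroup.coe_pow, hz, map_pow, conj_pow]
  -- no peripheral subgroup meets a vertex stabilizer
  have hB : ∀ (i : ι) (v : Cl P w (FV P)) (h : G), h ∈ H i → h • v = v → h = 1 := by
    intro i v h h1 h2
    by_contra h3
    apply hprop i
    rw [eq_top_iff]
    intro g _
    refine step2 htf hs hc (H i) (hmal i) ?_ T v h h3 h1 h2 g
    rintro v ⟨s', hs1, hs2⟩
    obtain ⟨g0, p, s, β, hβ, hβ1, ⟨y, hy⟩, hst⟩ := hcen v s' hs1 hs2
    refine ⟨y, ?_, ?_⟩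
    · intro h4
      rw [h4, map_one] at hy
      apply hβ1
      apply wh_left_inj p hβ
      have : wh p [] β = g0⁻¹ * (g0 * wh p [] β * g0⁻¹) * g0 := by group
      rw [this, ← hy]
      simp
    · intro k hk
      obtain ⟨α, hα, hk2⟩ := hst k hk
      apply hj
      rw [map_mul, map_mul]
      apply Subtype.ext
      rw [Subgroup.coe_mul, Subgroup.coe_mul, hk2, hy]
      have h4 := interchange hα hβ
      calc g0 * wh [] s α * g0⁻¹ * (g0 * wh p [] β * g0⁻¹)
          = g0 * (wh [] s α * wh p [] β) * g0⁻¹ := by group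
        _ = g0 * (wh p [] β * wh [] s α) * g0⁻¹ := by rw [h4]
        _ = _ := by group
  -- cohomological dimension of the peripheral subgroups
  have hvan : ∀ i, Van (H i) 1 := by
    intro i
    have hne : Nonempty (Cl P w (FV P)) := ⟨vtx hw 1 w (Pi.refl w)⟩
    refine van_tree (n := 0) (G := H i) (Cl P w (FV P)) (Cl P w (FE P)) (bd0 hw) (bd1 hw)
      (fun g x => bd0_smul hw (j g) x) (fun g x => bd1_smul hw (j g) x)
      (fun M _ F hF => tree_conn hw F hF) (fun M _ φ => tree_surj hw φ) ?_ ?_
    · intro v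
      have : Subsingleton (MulAction.stabilizer (H i) v) := by
        refine ⟨fun a b => ?_⟩
        have key : ∀ a : MulAction.stabilizer (H i) v, a = 1 := by
          rintro ⟨a, ha⟩
          apply Subtype.ext
          apply Subtype.ext
          exact hB i v a a.2 ha
        rw [key a, key b]
      exact van_of_subsingleton _
    · intro x
      have : Subsingleton (MulAction.stabilizer (H i) x) := by
        refine ⟨fun a b => ?_⟩
        have key : ∀ a : MulAction.stabilizer (H i) x, a = 1 := by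
          rintro ⟨a, ha⟩
          apply Subtype.ext
          apply Subtype.ext
          apply hB i (bd0 hw x) a a.2
          have h1 : (a : G) • bd0 hw x = bd0 hw ((a : G) • x) := (T.s0 (a : G) x).symm
          rw [h1]
          have h2 : (a : G) • x = x := ha
          rw [h2]
        rw [key a, key b]
      exact van_of_subsingleton _
  by_cases hst : ∃ (v : Cl P w (FV P)) (k : G), k ≠ 1 ∧ k • v = v
  · obtain ⟨v, k, hk1, hk⟩ := hst
    obtain ⟨g0, p, s, β, hβ, hβ1, ⟨y, hy⟩, hst⟩ := hcen v k hk1 hk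
    obtain ⟨α, hα, hk2⟩ := hst k hk
    let ψ : G →* U P :=
      { toFun := fun k => g0⁻¹ * (j k).1 * g0
        map_one' := by simp
        map_mul' := fun a b => by
          rw [map_mul, Subgroup.coe_mul]; group }
    have ha : ψ k = wh [] s α := by
      change g0⁻¹ * (j k).1 * g0 = _
      rw [hk2]; group
    have hb : ψ y = wh p [] β := by
      change g0⁻¹ * (j y).1 * g0 = _
      rw [hy]; group
    have hψ : Function.Injective ψ := by
      intro x y hxy
      have h1 : g0⁻¹ * (j x).1 * g0 = g0⁻¹ * (j y).1 * g0 := hxy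
      have h2 : (j x).1 = (j y).1 := by
        simpa using h1
      exact hj (Subtype.ext h2)
    refine area_contra hH hvan ψ k y ?_ p s α β hα ?_ hβ hβ1 ha hb
    · apply hψ
      rw [map_mul, map_mul, ha, hb]
      exact interchange hα hβ
    · rintro rfl
      apply hk1
      apply hψ
      rw [ha, map_one, map_one]
  · push Not at hst
    rcases free_case htf T (fun v g hg => by
      by_contra h
      exact hst v g h hg) (vtx hw 1 w (Pi.refl w)) h0 hh1 with h | h
    · exact hs h
    · exact hc h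

/-! ### free products are relatively hyperbolic -/

section FreeProduct

variable {G : Type} [Group G] {B C : Type} [Group B] [Group C]

/-- the first factor -/
def fb (f : G ≃* Monoid.Coprod B C) : B →* G := f.symm.toMonoidHom.comp Monoid.Coprod.inl
/-- the second factor -/
def fc (f : G ≃* Monoid.Coprod B C) : C →* G := f.symm.toMonoidHom.comp Monoid.Coprod.inr

theorem fb_apply (f : G ≃* Monoid.Coprod B C) (x : B) : fb f x = f.symm (Monoid.Coprod.inl x) := rfl
theorem fc_apply (f : G ≃* Monoid.Coprod B C) (x : C) : fc f x = f.symm (Monoid.Coprod.inr x) := rfl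

theorem fb_inj (f : G ≃* Monoid.Coprod B C) : Function.Injective (fb f) := by
  intro x y h
  have h2 := f.symm.injective h
  have h3 := congrArg (Monoid.Coprod.fst : Monoid.Coprod B C →* B) h2
  simpa using h3

theorem fc_inj (f : G ≃* Monoid.Coprod B C) : Function.Injective (fc f) := by
  intro x y h
  have h2 := f.symm.injective h
  have h3 := congrArg (Monoid.Coprod.snd : Monoid.Coprod B C →* C) h2
  simpa using h3

/-- the two factors -/
def fH (f : G ≃* Monoid.Coprod B C) : Fin 2 → Subgroup G := ![(fb f).range, (fc f).range]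

theorem free_hyp (f : G ≃* Monoid.Coprod B C) : IsHypRel (fH f) := by
  let b : B →* G := fb f
  let c : C →* G := fc f
  have hb : ∀ x, b x = f.symm (Monoid.Coprod.inl x) := fun _ => rfl
  have hc : ∀ x, c x = f.symm (Monoid.Coprod.inr x) := fun _ => rfl
  let H : Fin 2 → Subgroup G := ![b.range, c.range]
  -- the inverse of the natural homomorphism
  let gB : B →* FP H (∅ : Set G) :=
    (Monoid.Coprod.inl.comp (Monoid.CoprodI.of (M := fun i => H i) (i := 0))).comp b.rangeRestrict
  let gC : C →* FP H (∅ : Set G) :=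
    (Monoid.Coprod.inl.comp (Monoid.CoprodI.of (M := fun i => H i) (i := 1))).comp c.rangeRestrict
  let g : Monoid.Coprod B C →* FP H (∅ : Set G) := Monoid.Coprod.lift gB gC
  have hg1 : (nat H (∅ : Set G)).comp g = f.symm.toMonoidHom := by
    apply Monoid.Coprod.hom_ext
    · ext x
      have h5 : g (Monoid.Coprod.inl x) = gB x := Monoid.Coprod.lift_apply_inl _ _ _
      have h6 : nat H (∅ : Set G) (gB x) = b x := by
        change Monoid.Coprod.lift _ _ (Monoid.Coprod.inl (Monoid.CoprodI.of _)) = _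
        rw [Monoid.Coprod.lift_apply_inl, Monoid.CoprodI.lift_of]
        rfl
      change nat H (∅ : Set G) (g (Monoid.Coprod.inl x)) = _
      rw [h5, h6]
      rfl
    · ext x
      have h5 : g (Monoid.Coprod.inr x) = gC x := Monoid.Coprod.lift_apply_inr _ _ _
      have h6 : nat H (∅ : Set G) (gC x) = c x := by
        change Monoid.Coprod.lift _ _ (Monoid.Coprod.inl (Monoid.CoprodI.of _)) = _
        rw [Monoid.Coprod.lift_apply_inl, Monoid.CoprodI.lift_of]
        rfl
      change nat H (∅ : Set G) (g (Monoid.Coprod.inr x)) = _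
      rw [h5, h6]
      rfl
  have hg2 : (g.comp f.toMonoidHom).comp (nat H (∅ : Set G)) = MonoidHom.id _ := by
    apply Monoid.Coprod.hom_ext
    · apply Monoid.CoprodI.ext_hom
      intro i
      fin_cases i
      · ext ⟨x, hx⟩
        obtain ⟨y, rfl⟩ := hx
        simp only [nat, MonoidHom.comp_apply, Monoid.Coprod.lift_apply_inl,
          Monoid.CoprodI.lift_of, MonoidHom.id_apply]
        have h5 : g (f (b y)) = gB y := by
          rw [hb, f.apply_symm_apply]
          exact Monoid.Coprod.lift_apply_inl _ _ _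
        exact h5
      · ext ⟨x, hx⟩
        obtain ⟨y, rfl⟩ := hx
        simp only [nat, MonoidHom.comp_apply, Monoid.Coprod.lift_apply_inl,
          Monoid.CoprodI.lift_of, MonoidHom.id_apply]
        have h5 : g (f (c y)) = gC y := by
          rw [hc, f.apply_symm_apply]
          exact Monoid.Coprod.lift_apply_inr _ _ _
        exact h5
    · ext ⟨x, hx⟩
      exact hx.elim
  have hinj : Function.Injective (nat H (∅ : Set G)) := by
    intro x y hxy
    have h1 := DFunLike.congr_fun hg2 x
    have h2 := DFunLike.congr_fun hg2 y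
    simp only [MonoidHom.comp_apply, MonoidHom.id_apply] at h1 h2
    rw [← h1, ← h2, hxy]
  change IsHypRel H
  refine ⟨∅, Set.finite_empty, ?_, ∅, Set.finite_empty, ?_, 0, ?_⟩
  · intro x
    refine ⟨g (f x), ?_⟩
    have h1 := DFunLike.congr_fun hg1 (f x)
    simp only [MonoidHom.comp_apply] at h1
    rw [h1]
    exact f.symm_apply_apply x
  · rw [Subgroup.normalClosure_empty, (MonoidHom.ker_eq_bot_iff _).2 hinj]
  · intro l hl
    have h1 : wv l = 1 := hinj (by rw [hl, map_one])
    rw [h1]
    exact ⟨[], by simp, by simp, by simp⟩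

theorem fH_proper [Nontrivial B] [Nontrivial C] (f : G ≃* Monoid.Coprod B C) (i : Fin 2) :
    fH f i ≠ ⊤ := by
  fin_cases i
  · intro h
    obtain ⟨y, hy⟩ := exists_ne (1 : C)
    have h1 : fc f y ∈ fH f 0 := by rw [show fH f 0 = ⊤ from h]; trivial
    obtain ⟨x, hx⟩ := h1
    rw [fb_apply, fc_apply] at hx
    have h2 := f.symm.injective hx
    have h3 := congrArg (Monoid.Coprod.snd : Monoid.Coprod B C →* C) h2
    rw [Monoid.Coprod.snd_apply_inl, Monoid.Coprod.snd_apply_inr] at h3
    exact hy h3.symm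
  · intro h
    obtain ⟨y, hy⟩ := exists_ne (1 : B)
    have h1 : fb f y ∈ fH f 1 := by rw [show fH f 1 = ⊤ from h]; trivial
    obtain ⟨x, hx⟩ := h1
    rw [fb_apply, fc_apply] at hx
    have h2 := f.symm.injective hx
    have h3 := congrArg (Monoid.Coprod.fst : Monoid.Coprod B C →* B) h2
    rw [Monoid.Coprod.fst_apply_inl, Monoid.Coprod.fst_apply_inr] at h3
    exact hy h3.symm

theorem fH_infinite [Nontrivial B] [Nontrivial C] (f : G ≃* Monoid.Coprod B C)
    (htf : ∀ g : G, g ≠ 1 → ∀ n : ℕ, n ≠ 0 → g ^ n ≠ 1) (i : Fin 2) : Infinite (fH f i) := by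
  have hinfK : ∀ K : Subgroup G, (∃ x ∈ K, x ≠ 1) → Infinite K := by
    rintro K ⟨x, hx, hx1⟩
    refine Infinite.of_injective (fun n : ℕ => (⟨x ^ n, K.pow_mem hx n⟩ : K)) ?_
    intro m n hmn
    exact pow_inj_tf htf hx1 (congrArg Subtype.val hmn)
  fin_cases i
  · apply hinfK
    obtain ⟨y, hy⟩ := exists_ne (1 : B)
    refine ⟨fb f y, ⟨y, rfl⟩, ?_⟩
    intro h
    exact hy (fb_inj f (by rw [h, map_one]))
  · apply hinfK
    obtain ⟨y, hy⟩ := exists_ne (1 : C)
    refine ⟨fc f y, ⟨y, rfl⟩, ?_⟩
    intro h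
    exact hy (fc_inj f (by rw [h, map_one]))

/-- free factors are malnormal -/
theorem fb_malnormal (f : G ≃* Monoid.Coprod B C)
    (htf : ∀ g : G, g ≠ 1 → ∀ n : ℕ, n ≠ 0 → g ^ n ≠ 1) {x : B} (hx : x ≠ 1) {g : G}
    (hg : fb f x * g = g * fb f x) : ∃ y : B, fb f y = g := by
  have h1 : fb f x ≠ 1 := fun h => hx (fb_inj f (by rw [h, map_one]))
  have h2 := malnormal (free_hyp f) 0 0 g (fb f x) ⟨x, rfl⟩ (htf _ h1) (by
    rw [mul_assoc, hg, inv_mul_cancel_left]
    exact ⟨x, rfl⟩)
  obtain ⟨y, hy⟩ := h2.2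
  exact ⟨y, hy⟩

end FreeProduct

end Pool.Agent.Y796.RH
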